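import Pool.Agent.Lib.MP_d7bfcb_an.Main

open Set

namespace Pool.Agent.Results.MP_d7bfcb_an.FlatAttainable

open Pool.Agent.Lib.MP_d7bfcb_an

/-- In every dimension `n ≥ 5` there is a finite family of polynomial (in particular
real-analytic) vector fields that is small time locally controllable at the origin, while for
every exponent `N` the attainable set `𝒜_t` fails to contain the closed ball of radius `t ^ N`
for all sufficiently small `t > 0`. -/
theorem result (n : ℕ) (hn : 5 ≤ n) :
    ∃ (k : ℕ) (f : Fin k → EuclideanSpace ℝ (Fin n) → EuclideanSpace ℝ (Fin n)),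
      2 ≤ k ∧ (∀ i, IsPolynomialField (f i)) ∧ (∀ i, AnalyticOnNhd ℝ (f i) Set.univ) ∧
      STLC f ∧
      ∀ N : ℝ, ∃ t₀ > 0, ∀ t : ℝ, 0 < t → t < t₀ →
        ¬ Metric.closedBall (0 : EuclideanSpace ℝ (Fin n)) (t ^ N) ⊆ attainableSet f t := by
  set e : Fin 5 → Fin n := Fin.castLE hn with hedef
  have he : Function.Injective e := Fin.castLE_injective hn
  obtain ⟨k, f, -, hf⟩ := (fieldSet_finite e).fin_param
  have hmem : ∀ i, f i ∈ fieldSet e := fun i => hf ▸ mem_range_self i
  refine ⟨k, f, ?_, fun i => isPolynomialField_of_mem (hmem i),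
    fun i => (isPolynomialField_of_mem (hmem i)).analyticOnNhd, stlc he hf, not_subset he hf⟩
  by_contra hk
  have h1 : fieldF e ∈ range f := by rw [hf]; exact Or.inl rfl
  have h2 : fieldB e ∈ range f := by rw [hf]; exact Or.inr (Or.inl rfl)
  obtain ⟨i, hi⟩ := h1
  obtain ⟨j, hj⟩ := h2
  have hij : i = j := by
    apply Fin.ext
    have := i.2
    have := j.2
    omega
  have h3 : fieldF e = fieldB e := by rw [← hi, ← hj, hij]
  have h4 := congrFun h3 0
  have h5 : fieldF e 0 (e 0) = fieldB e 0 (e 0) := by rw [h4]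
  simp only [fieldF, fieldB, if_true] at h5
  norm_num at h5

end Pool.Agent.Results.MP_d7bfcb_an.FlatAttainable
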